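import Pool.Agent.N912.MS.Stm2
import Pool.Agent.N713.MS.Pret2

/-!
Project MS (helper912), part MS15: pretentious functions are limits in the mean of periodic
functions.
-/

set_option autoImplicit false

namespace Pool.Agent.N565.MS

open Finset Filter
open Pool.Agent.W78.GA (Qd nm ball mem_ball nm_mul nm_pow nm_pos mul_star_self')
open Pool.Agent.N912.MS Pool.Agent.N713.MS

/-- a truncated factor is periodic -/
theorem fac_per (a : ℝ) {π : Gi} {J : ℕ} {v : Gi} (hv : π ^ J ∣ v) (z : Gi) :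
    fac a π J (z + v) = fac a π J z := by
  unfold fac
  congr 1
  refine sum_congr rfl fun k hk => ?_
  congr 1
  have h1 : π ^ (k + 1) ∣ v := (pow_dvd_pow π (by rw [mem_range] at hk; omega)).trans hv
  by_cases h : π ^ (k + 1) ∣ z
  · rw [if_pos h, if_pos (dvd_add h h1)]
  · rw [if_neg h, if_neg fun h2 => h ((dvd_add_left h1).1 h2)]

theorem fac_bd {a : ℝ} (ha : |a| ≤ 1) {π : Gi} (hπ : Prime π) (J : ℕ) (z : Gi) :
    |fac a π J z| ≤ 1 := by
  by_cases hz : z = 0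
  · rw [hz, fac_zero]
    exact pow_bd ha _
  · rw [fac_eq a hπ J hz]
    exact pow_bd ha _

theorem hS_bd {f : Gi → ℝ} (hf : CMR f) {S : Finset Gi} (hS' : ∀ π ∈ S, Pr1 π) (J : ℕ) (z : Gi) :
    |hS f S J z| ≤ 1 := by
  unfold hS
  exact prod_bd _ _ fun π hπ => fac_bd (hf.bd π) (hS' π hπ).1 J z

theorem dvd_nm (π : Gi) : π ∣ ((nm π : ℕ) : Gi) :=
  ⟨star π, (mul_star_self' hD π).symm⟩

theorem hS_per (f : Gi → ℝ) (S : Finset Gi) (J : ℕ) (z w : Gi) :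
    hS f S J (z + ((∏ π ∈ S, nm π ^ J : ℕ) : Gi) * w) = hS f S J z := by
  unfold hS
  refine prod_congr rfl fun π hπ => fac_per _ ?_ z
  refine Dvd.dvd.mul_right ?_ w
  have h1 : ((nm π ^ J : ℕ) : Gi) ∣ ((∏ π ∈ S, nm π ^ J : ℕ) : Gi) := by
    obtain ⟨c, hc⟩ := Finset.dvd_prod_of_mem (fun π => nm π ^ J) hπ
    refine ⟨(c : Gi), ?_⟩
    rw [hc]
    exact Nat.cast_mul _ _
  refine dvd_trans ?_ h1
  rw [Nat.cast_pow]
  exact pow_dvd_pow_of_dvd (dvd_nm π) J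

open scoped Classical in
/-- MS15 -/
theorem bes2 : S_BES2 := by
  intro f hf hP ε hε
  obtain ⟨s, hs⟩ := (summable_iff_vanishing_norm.1 hP) (ε / 144) (by positivity)
  set x : ℕ := s.sup fun z => nm z with hx
  have hSP : ∀ π ∈ SS x, Pr1 π := fun π hπ => (mem_SS.1 hπ).1
  have htail : ∀ T : Finset Gi, (∀ π ∈ T, Pr1 π) →
      ∑ π ∈ T \ SS x, (1 - f π) / nm π ≤ ε / 144 := by
    intro T hT
    have h1 : Disjoint (T \ SS x) s := by
      rw [Finset.disjoint_left]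
      intro π hπ hπs
      rw [Finset.mem_sdiff] at hπ
      exact hπ.2 (mem_SS.2 ⟨hT π hπ.1, Finset.le_sup (f := fun z => nm z) hπs⟩)
    have h2 := hs _ h1
    have h3 : ∑ π ∈ T \ SS x, (1 - f π) / (nm π : ℝ) =
        ∑ π ∈ T \ SS x, (if Pr1 π then (1 - f π) / (nm π : ℝ) else 0) :=
      sum_congr rfl fun π hπ => by rw [if_pos (hT π (mem_sdiff.1 hπ).1)]
    rw [h3]
    exact (le_abs_self _).trans h2.le
  have hJ2 : ∀ᶠ J : ℕ in atTop, ∑ π ∈ SS x, 1 / (nm π : ℝ) ^ (J + 1) ≤ ε / 144 := by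
    have h1 : Tendsto (fun J : ℕ => ∑ π ∈ SS x, 1 / (nm π : ℝ) ^ (J + 1)) atTop
        (nhds (∑ π ∈ SS x, (0 : ℝ))) := by
      refine tendsto_finsetSum _ fun π hπ => ?_
      have hN : (2 : ℝ) ≤ nm π := by exact_mod_cast two_le_nm (hSP π hπ).1
      have h2 : Tendsto (fun J : ℕ => (1 / (nm π : ℝ)) ^ (J + 1)) atTop (nhds 0) := by
        refine (tendsto_pow_atTop_nhds_zero_of_lt_one (by positivity) ?_).comp
          (tendsto_add_atTop_nat 1)
        rw [div_lt_one (by linarith)]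
        linarith
      refine h2.congr fun J => ?_
      rw [one_div, inv_pow, one_div]
    rw [sum_const_zero] at h1
    filter_upwards [h1.eventually (gt_mem_nhds (show (0 : ℝ) < ε / 144 by positivity))] with J hJ
    exact hJ.le
  obtain ⟨J, hJ⟩ := hJ2.exists
  refine ⟨∏ π ∈ SS x, nm π ^ J, hS f (SS x) J, ?_, fun z w => hS_per f (SS x) J z w,
    fun z => hS_bd hf hSP J z, ⌈4 / ε⌉₊ + 1, fun R hR => ?_⟩
  · exact Nat.succ_le_of_lt (Finset.prod_pos fun π hπ =>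
      pow_pos (nm_pos hD (hSP π hπ).1.ne_zero) J)
  set T : Finset Gi := SS (max x (2 * R ^ 2)) with hT
  have hTP : ∀ π ∈ T, Pr1 π := fun π hπ => (mem_SS.1 hπ).1
  have hST : SS x ⊆ T := fun π hπ =>
    mem_SS.2 ⟨(mem_SS.1 hπ).1, (mem_SS.1 hπ).2.trans (le_max_left _ _)⟩
  have hTR : ∀ π, Pr1 π → nm π ≤ 2 * R ^ 2 → π ∈ T := fun π h1 h2 =>
    mem_SS.2 ⟨h1, h2.trans (le_max_right _ _)⟩
  have hbox := box_bd hf hST hTP J R hTR
  have ht := htail T hTP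
  have hRε : 4 / ε ≤ (R : ℝ) := (Nat.le_ceil _).trans (by exact_mod_cast (by omega))
  have hR1 : (1 : ℝ) ≤ R := by
    have : 1 ≤ R := by omega
    exact_mod_cast this
  have h1 : 36 * (R : ℝ) ^ 2 * ∑ π ∈ T \ SS x, (1 - f π) / (nm π : ℝ) ≤
      36 * (R : ℝ) ^ 2 * (ε / 144) := mul_le_mul_of_nonneg_left ht (by positivity)
  have h2 : 36 * (R : ℝ) ^ 2 * ∑ π ∈ SS x, 1 / (nm π : ℝ) ^ (J + 1) ≤
      36 * (R : ℝ) ^ 2 * (ε / 144) := mul_le_mul_of_nonneg_left hJ (by positivity)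
  have h3 : 4 ≤ ε * (R : ℝ) := by
    rw [div_le_iff₀ hε] at hRε
    linarith
  have h4 : 4 ≤ ε * (R : ℝ) ^ 2 := by nlinarith
  linarith

end Pool.Agent.N565.MS
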